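import Mathlib

/-!
# A weakly support-preserving endomorphism of the convolution semigroup that is neither a tilting
map nor one of its two limits

Finitely supported probability measures on the naturals are represented by finitely supported
real functions which are nonnegative and sum to one; convolution is the usual one.

The example: take a valuation `v` of the field of real numbers with `v 2 < 1` (multiplicative
notation; it exists by Zorn's lemma). Send a measure to the point mass at the least point at
which the value of the weight is maximal. The Gauss lemma shows that this is an endomorphism.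
-/

set_option autoImplicit false

namespace Pool.Agent.Results.MP_aec1ed_pr.ExoticEndomorphism

open Finset

/-- The finitely supported probability measures on the naturals. -/
structure FinProb where
  /-- the weights -/
  weight : ℕ →₀ ℝ
  nonneg : ∀ s, 0 ≤ weight s
  sum_eq_one : ∑ s ∈ weight.support, weight s = 1

/-- The support of a measure: the points of positive weight. -/
def FinProb.supp (μ : FinProb) : Set ℕ := {s | 0 < μ.weight s}

theorem FinProb.ext' {μ ν : FinProb} (h : ∀ s, μ.weight s = ν.weight s) : μ = ν := by
  cases μ with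
  | mk w hw hs =>
    cases ν with
    | mk w' hw' hs' =>
      have : w = w' := Finsupp.ext h
      subst this
      rfl

/-- The weights of the convolution: the weight at `s` is the sum over `i + j = s` of
`μ i * ν j`. -/
noncomputable def convWeight (μ ν : ℕ →₀ ℝ) : ℕ →₀ ℝ :=
  Finsupp.onFinset (range (μ.support.sup id + ν.support.sup id + 1))
    (fun s => ∑ p ∈ antidiagonal s, μ p.1 * ν p.2)
    (by
      intro s hs
      obtain ⟨p, hp, hne⟩ := Finset.exists_ne_zero_of_sum_ne_zero hs
      have h1 : p.1 ∈ μ.support := Finsupp.mem_support_iff.2 (left_ne_zero_of_mul hne)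
      have h2 : p.2 ∈ ν.support := Finsupp.mem_support_iff.2 (right_ne_zero_of_mul hne)
      have h3 : p.1 ≤ μ.support.sup id := Finset.le_sup (f := id) h1
      have h4 : p.2 ≤ ν.support.sup id := Finset.le_sup (f := id) h2
      have h5 : p.1 + p.2 = s := HasAntidiagonal.mem_antidiagonal.1 hp
      simp only [mem_range]
      omega)

theorem convWeight_apply (μ ν : ℕ →₀ ℝ) (s : ℕ) :
    convWeight μ ν s = ∑ p ∈ antidiagonal s, μ p.1 * ν p.2 := rfl

theorem sum_convWeight (μ ν : ℕ →₀ ℝ) :
    ∑ s ∈ (convWeight μ ν).support, convWeight μ ν s =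
      (∑ s ∈ μ.support, μ s) * ∑ s ∈ ν.support, ν s := by
  set N := μ.support.sup id + ν.support.sup id + 1 with hN
  have h1 : ∑ s ∈ (convWeight μ ν).support, convWeight μ ν s =
      ∑ s ∈ range N, convWeight μ ν s := by
    apply Finset.sum_subset
    · intro s hs
      exact Finsupp.support_onFinset_subset hs
    · intro s _ hs
      simpa using hs
  rw [h1, Finset.sum_mul_sum, ← Finset.sum_product']
  simp only [convWeight_apply]
  rw [Finset.sum_sigma']
  symm
  apply Finset.sum_bij_ne_zero (fun (p : ℕ × ℕ) _ _ => (⟨p.1 + p.2, p⟩ : Σ _ : ℕ, ℕ × ℕ))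
  · intro p hp _
    simp only [mem_product] at hp
    have h3 : p.1 ≤ μ.support.sup id := Finset.le_sup (f := id) hp.1
    have h4 : p.2 ≤ ν.support.sup id := Finset.le_sup (f := id) hp.2
    rw [mem_sigma]
    refine ⟨?_, HasAntidiagonal.mem_antidiagonal.2 rfl⟩
    rw [mem_range]
    change p.1 + p.2 < N
    omega
  · intro p _ _ q _ _ h
    simp only [Sigma.mk.injEq] at h
    exact eq_of_heq h.2
  · intro q hq hne
    refine ⟨q.2, ?_, hne, ?_⟩
    · simp only [mem_product, Finsupp.mem_support_iff]
      exact ⟨left_ne_zero_of_mul hne, right_ne_zero_of_mul hne⟩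
    · simp only [mem_sigma, HasAntidiagonal.mem_antidiagonal] at hq
      rcases q with ⟨a, b⟩
      simp only at hq
      simp [hq.2]
  · intro p _ _
    rfl

/-- Convolution of two finitely supported probability measures on the naturals. -/
noncomputable def conv (μ ν : FinProb) : FinProb where
  weight := convWeight μ.weight ν.weight
  nonneg s := by
    rw [convWeight_apply]
    exact Finset.sum_nonneg fun p _ => mul_nonneg (μ.nonneg _) (ν.nonneg _)
  sum_eq_one := by rw [sum_convWeight, μ.sum_eq_one, ν.sum_eq_one, one_mul]

/-- The point mass at `s`. -/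
noncomputable def pointMass (s : ℕ) : FinProb where
  weight := Finsupp.single s 1
  nonneg t := by
    rw [Finsupp.single_apply]
    split_ifs <;> norm_num
  sum_eq_one := by
    have h : (Finsupp.single s (1 : ℝ)).support = {s} :=
      Finsupp.support_single s one_ne_zero
    rw [h]
    simp

theorem support_nonempty (μ : FinProb) : μ.weight.support.Nonempty := by
  by_contra h
  rw [Finset.not_nonempty_iff_eq_empty] at h
  have := μ.sum_eq_one
  rw [h] at this
  simp at this

theorem tilt_norm_pos (β : ℝ) (μ : FinProb) :
    0 < ∑ t ∈ μ.weight.support, μ.weight t * Real.exp (-β * t) := by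
  apply Finset.sum_pos
  · intro t ht
    have : μ.weight t ≠ 0 := Finsupp.mem_support_iff.1 ht
    exact mul_pos (lt_of_le_of_ne (μ.nonneg t) (Ne.symm this)) (Real.exp_pos _)
  · exact support_nonempty μ

/-- The tilting map: the weight at `s` is multiplied by `exp (-β s)` and the result is
normalised. -/
noncomputable def tilt (β : ℝ) (μ : FinProb) : FinProb where
  weight := Finsupp.onFinset μ.weight.support
    (fun s => μ.weight s * Real.exp (-β * s) /
      ∑ t ∈ μ.weight.support, μ.weight t * Real.exp (-β * t))
    (by
      intro s hs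
      rw [Finsupp.mem_support_iff]
      intro h0
      apply hs
      simp [h0])
  nonneg s := div_nonneg (mul_nonneg (μ.nonneg s) (Real.exp_pos _).le) (tilt_norm_pos β μ).le
  sum_eq_one := by
    rw [Finset.sum_subset (Finsupp.support_onFinset_subset)]
    · simp only [Finsupp.onFinset_apply]
      rw [← Finset.sum_div]
      exact div_self (tilt_norm_pos β μ).ne'
    · intro s _ hs
      exact Finsupp.notMem_support_iff.1 hs

/-- The map sending a measure to the point mass at the largest point of its support. -/
noncomputable def tiltMax (μ : FinProb) : FinProb :=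
  pointMass (μ.weight.support.max' (support_nonempty μ))

/-- The map sending a measure to the point mass at the smallest point of its support. -/
noncomputable def tiltMin (μ : FinProb) : FinProb :=
  pointMass (μ.weight.support.min' (support_nonempty μ))

/-- Being an endomorphism of the convolution semigroup. -/
def IsEndomorphism (Ψ : FinProb → FinProb) : Prop :=
  ∀ μ ν : FinProb, Ψ (conv μ ν) = conv (Ψ μ) (Ψ ν)

/-- Being weakly support-preserving: the support of the image is contained in the support. -/
def IsWeaklySupportPreserving (Ψ : FinProb → FinProb) : Prop :=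
  ∀ μ : FinProb, (Ψ μ).supp ⊆ μ.supp

/-! ### The valuation -/

theorem exists_valuationSubring : ∃ V : ValuationSubring ℝ, V.valuation (2 : ℝ) < 1 := by
  let A : Subring ℝ := (Int.castRingHom ℝ).range
  let I : Ideal A := Ideal.span {(2 : A)}
  have hI : I ≠ ⊤ := by
    intro h
    have h1 : (1 : A) ∈ Ideal.span {(2 : A)} := by
      have : (1 : A) ∈ I := h ▸ Submodule.mem_top
      exact this
    rw [Ideal.mem_span_singleton'] at h1
    obtain ⟨c, hc⟩ := h1
    obtain ⟨n, hn⟩ := c.2
    have h2 : (c : ℝ) * 2 = 1 := congrArg (fun x : A => (x : ℝ)) hc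
    have h3 : ((n * 2 : ℤ) : ℝ) = ((1 : ℤ) : ℝ) := by
      push_cast
      rw [← h2, ← hn]
      simp
    have h4 : n * 2 = 1 := by exact_mod_cast h3
    omega
  obtain ⟨B, _, hB⟩ := Ideal.image_subset_nonunits_valuationSubring I hI
  refine ⟨B, ?_⟩
  have h2 : (2 : ℝ) ∈ B.nonunits := by
    apply hB
    exact ⟨(2 : A), Ideal.subset_span rfl, rfl⟩
  exact (ValuationSubring.mem_nonunits_iff B).1 h2

/-! ### The Gauss lemma for an arbitrary valuation of the reals -/

section Gauss

variable {Γ : Type*} [LinearOrderedCommGroupWithZero Γ] (v : Valuation ℝ Γ)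

/-- `k` is the least index at which the value of the weight is maximal. -/
def IsIndex (μ : FinProb) (k : ℕ) : Prop :=
  (∀ s, v (μ.weight s) ≤ v (μ.weight k)) ∧ ∀ s, s < k → v (μ.weight s) < v (μ.weight k)

theorem exists_isIndex (μ : FinProb) : ∃ k, IsIndex v μ k := by
  classical
  obtain ⟨m, hm, hmax⟩ := Finset.exists_max_image μ.weight.support
    (fun s => v (μ.weight s)) (support_nonempty μ)
  have hmax' : ∀ s, v (μ.weight s) ≤ v (μ.weight m) := by
    intro s
    by_cases hs : s ∈ μ.weight.support
    · exact hmax s hs
    · rw [Finsupp.notMem_support_iff.1 hs, map_zero]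
      exact zero_le
  have hex : ∃ k, v (μ.weight k) = v (μ.weight m) := ⟨m, rfl⟩
  refine ⟨Nat.find hex, ?_, ?_⟩
  · intro s
    rw [Nat.find_spec hex]
    exact hmax' s
  · intro s hs
    rw [Nat.find_spec hex]
    exact lt_of_le_of_ne (hmax' s) (Nat.find_min hex hs)

theorem IsIndex.unique {μ : FinProb} {k l : ℕ} (hk : IsIndex v μ k) (hl : IsIndex v μ l) :
    k = l := by
  rcases lt_trichotomy k l with h | h | h
  · exact absurd (hk.1 l) (not_le.2 (hl.2 k h))
  · exact h
  · exact absurd (hl.1 k) (not_le.2 (hk.2 l h))

theorem IsIndex.ne_zero {μ : FinProb} {k : ℕ} (hk : IsIndex v μ k) : μ.weight k ≠ 0 := by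
  obtain ⟨s, hs⟩ := support_nonempty μ
  intro h0
  have h1 := hk.1 s
  rw [h0, map_zero] at h1
  have h2 : v (μ.weight s) = 0 := le_antisymm h1 zero_le
  exact Finsupp.mem_support_iff.1 hs ((Valuation.zero_iff v).1 h2)

theorem IsIndex.pos {μ : FinProb} {k : ℕ} (hk : IsIndex v μ k) : 0 < v (μ.weight k) :=
  zero_lt_iff.2 ((Valuation.ne_zero_iff v).2 (IsIndex.ne_zero v hk))

theorem IsIndex.conv {μ ν : FinProb} {k l : ℕ} (hk : IsIndex v μ k) (hl : IsIndex v ν l) :
    IsIndex v (conv μ ν) (k + l) := by
  have hA := IsIndex.pos v hk
  have hB := IsIndex.pos v hl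
  have hAB : 0 < v (μ.weight k) * v (ν.weight l) := mul_pos hA hB
  -- a term other than the main one in or below the main antidiagonal is strictly smaller
  have hterm : ∀ i j : ℕ, i + j ≤ k + l → (i, j) ≠ (k, l) →
      v (μ.weight i * ν.weight j) < v (μ.weight k) * v (ν.weight l) := by
    intro i j hij hne
    rw [map_mul]
    have hcase : i < k ∨ j < l := by
      by_contra hcon
      push Not at hcon
      apply hne
      have h1 : i = k := by omega
      have h2 : j = l := by omega
      rw [h1, h2]
    rcases hcase with h | h
    · exact mul_lt_mul_of_lt_of_le_of_nonneg_of_pos (hk.2 i h) (hl.1 j) zero_le hB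
    · exact mul_lt_mul_of_le_of_lt_of_nonneg_of_pos (hk.1 i) (hl.2 j h) zero_le hA
  have hle : ∀ s, v ((Pool.Agent.Results.MP_aec1ed_pr.ExoticEndomorphism.conv μ ν).weight s) ≤
      v (μ.weight k) * v (ν.weight l) := by
    intro s
    change v (∑ p ∈ antidiagonal s, μ.weight p.1 * ν.weight p.2) ≤ _
    apply Valuation.map_sum_le
    intro p _
    rw [map_mul]
    exact mul_le_mul' (hk.1 _) (hl.1 _)
  have hlt : ∀ s, s < k + l →
      v ((Pool.Agent.Results.MP_aec1ed_pr.ExoticEndomorphism.conv μ ν).weight s) <
      v (μ.weight k) * v (ν.weight l) := by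
    intro s hs
    change v (∑ p ∈ antidiagonal s, μ.weight p.1 * ν.weight p.2) < _
    apply Valuation.map_sum_lt v hAB.ne'
    intro p hp
    have h5 : p.1 + p.2 = s := HasAntidiagonal.mem_antidiagonal.1 hp
    apply hterm p.1 p.2 (by omega)
    intro heq
    rw [Prod.mk.injEq] at heq
    omega
  have hmain : v ((Pool.Agent.Results.MP_aec1ed_pr.ExoticEndomorphism.conv μ ν).weight (k + l)) =
      v (μ.weight k) * v (ν.weight l) := by
    change v (∑ p ∈ antidiagonal (k + l), μ.weight p.1 * ν.weight p.2) = _
    have hmem : (k, l) ∈ antidiagonal (k + l) := HasAntidiagonal.mem_antidiagonal.2 rfl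
    rw [← Finset.add_sum_erase _ _ hmem]
    have hrest : v (∑ p ∈ (antidiagonal (k + l)).erase (k, l), μ.weight p.1 * ν.weight p.2) <
        v (μ.weight k * ν.weight l) := by
      rw [map_mul]
      apply Valuation.map_sum_lt v hAB.ne'
      intro p hp
      rw [Finset.mem_erase] at hp
      have h5 : p.1 + p.2 = k + l := HasAntidiagonal.mem_antidiagonal.1 hp.2
      exact hterm p.1 p.2 h5.le hp.1
    rw [Valuation.map_add_eq_of_lt_left v hrest, map_mul]
  exact ⟨fun s => by rw [hmain]; exact hle s, fun s hs => by rw [hmain]; exact hlt s hs⟩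

/-- The point selected by the valuation. -/
noncomputable def index (μ : FinProb) : ℕ := (exists_isIndex v μ).choose

theorem index_spec (μ : FinProb) : IsIndex v μ (index v μ) := (exists_isIndex v μ).choose_spec

theorem index_conv (μ ν : FinProb) : index v (conv μ ν) = index v μ + index v ν :=
  IsIndex.unique v (index_spec v _) (IsIndex.conv v (index_spec v μ) (index_spec v ν))

end Gauss

theorem conv_pointMass (a b : ℕ) : conv (pointMass a) (pointMass b) = pointMass (a + b) := by
  apply FinProb.ext'
  intro s
  change ∑ p ∈ antidiagonal s, (Finsupp.single a (1 : ℝ)) p.1 * (Finsupp.single b (1 : ℝ)) p.2 =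
    (Finsupp.single (a + b) (1 : ℝ)) s
  by_cases h : a + b = s
  · rw [← h, Finset.sum_eq_single (a, b)]
    · simp
    · intro p hp hne
      have h5 : p.1 + p.2 = a + b := HasAntidiagonal.mem_antidiagonal.1 hp
      rw [Finsupp.single_apply, Finsupp.single_apply]
      by_cases h1 : a = p.1
      · have h2 : ¬ b = p.2 := by
          intro h2
          apply hne
          rw [h1, h2]
        simp [h2]
      · simp [h1]
    · intro hcon
      exact absurd (HasAntidiagonal.mem_antidiagonal.2 (rfl : (a, b).1 + (a, b).2 = a + b)) hcon
  · rw [Finsupp.single_apply, if_neg h]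
    apply Finset.sum_eq_zero
    intro p hp
    have h5 : p.1 + p.2 = s := HasAntidiagonal.mem_antidiagonal.1 hp
    rw [Finsupp.single_apply, Finsupp.single_apply]
    by_cases h1 : a = p.1
    · have h2 : ¬ b = p.2 := by omega
      simp [h2]
    · simp [h1]

/-- A two point measure on `{0, 1}`. -/
noncomputable def twoPoint (q : ℝ) (h0 : 0 < q) (h1 : q < 1) : FinProb where
  weight := Finsupp.single 0 (1 - q) + Finsupp.single 1 q
  nonneg s := by
    rw [Finsupp.add_apply, Finsupp.single_apply, Finsupp.single_apply]
    split_ifs <;> linarith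
  sum_eq_one := by
    have hsub : (Finsupp.single 0 (1 - q) + Finsupp.single 1 q : ℕ →₀ ℝ).support ⊆ {0, 1} := by
      intro s hs
      rw [Finsupp.mem_support_iff, Finsupp.add_apply, Finsupp.single_apply,
        Finsupp.single_apply] at hs
      by_contra hcon
      simp only [mem_insert, mem_singleton, not_or] at hcon
      apply hs
      rw [if_neg (Ne.symm hcon.1), if_neg (Ne.symm hcon.2), add_zero]
    rw [Finset.sum_subset hsub]
    · rw [Finset.sum_pair (by norm_num)]
      simp
    · intro s _ hs
      exact Finsupp.notMem_support_iff.1 hs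

theorem twoPoint_zero (q : ℝ) (h0 : 0 < q) (h1 : q < 1) :
    (twoPoint q h0 h1).weight 0 = 1 - q := by
  simp [twoPoint]

theorem twoPoint_one (q : ℝ) (h0 : 0 < q) (h1 : q < 1) :
    (twoPoint q h0 h1).weight 1 = q := by
  simp [twoPoint]

theorem twoPoint_support (q : ℝ) (h0 : 0 < q) (h1 : q < 1) :
    (twoPoint q h0 h1).weight.support = {0, 1} := by
  ext s
  simp only [Finsupp.mem_support_iff, mem_insert, mem_singleton]
  constructor
  · intro hs
    by_contra hcon
    rw [not_or] at hcon
    apply hs
    change (Finsupp.single 0 (1 - q) + Finsupp.single 1 q : ℕ →₀ ℝ) s = 0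
    rw [Finsupp.add_apply, Finsupp.single_apply, Finsupp.single_apply,
      if_neg (Ne.symm hcon.1), if_neg (Ne.symm hcon.2), add_zero]
  · rintro (h | h)
    · subst h
      rw [twoPoint_zero]
      linarith
    · subst h
      rw [twoPoint_one]
      exact h0.ne'

theorem pointMass_injective {a b : ℕ} (h : pointMass a = pointMass b) : a = b := by
  have h1 := congrArg (fun μ : FinProb => μ.weight a) h
  change (Finsupp.single a (1 : ℝ)) a = (Finsupp.single b (1 : ℝ)) a at h1
  rw [Finsupp.single_eq_same, Finsupp.single_apply] at h1
  by_contra hne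
  rw [if_neg (Ne.symm hne)] at h1
  exact one_ne_zero h1

/-- There is a weakly support-preserving endomorphism of the convolution semigroup of finitely
supported probability measures on the naturals that differs from every tilting map and from
both limits of the tilting maps. -/
theorem result :
    ∃ Ψ : FinProb → FinProb,
      IsEndomorphism Ψ ∧ IsWeaklySupportPreserving Ψ ∧
        (∀ β : ℝ, Ψ ≠ tilt β) ∧ Ψ ≠ tiltMax ∧ Ψ ≠ tiltMin := by
  obtain ⟨V, hV⟩ := exists_valuationSubring
  set v := V.valuation with hv
  have h3 : v (3 : ℝ) = 1 := by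
    have : (3 : ℝ) = 1 + 2 := by norm_num
    rw [this, Valuation.map_add_eq_of_lt_left v (by rwa [map_one]), map_one]
  refine ⟨fun μ => pointMass (index v μ), ?_, ?_, ?_, ?_, ?_⟩
  · intro μ ν
    simp only
    rw [index_conv, conv_pointMass]
  · intro μ s hs
    have hs' : 0 < (Finsupp.single (index v μ) (1 : ℝ)) s := hs
    rw [Finsupp.single_apply] at hs'
    have heq : index v μ = s := by
      by_contra hne
      rw [if_neg hne] at hs'
      exact lt_irrefl _ hs'
    have hne := IsIndex.ne_zero v (index_spec v μ)
    change 0 < μ.weight s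
    rw [← heq]
    exact lt_of_le_of_ne (μ.nonneg _) (Ne.symm hne)
  · intro β hcon
    have h1 := congrArg (fun Φ : FinProb → FinProb =>
      (Φ (twoPoint (1 / 2) (by norm_num) (by norm_num))).supp) hcon
    -- the tilted measure charges both points, the point mass only one
    have h0mem : ∀ s ∈ ({0, 1} : Finset ℕ),
        s ∈ (tilt β (twoPoint (1 / 2) (by norm_num) (by norm_num))).supp := by
      intro s hs
      change 0 < (twoPoint (1 / 2) (by norm_num) (by norm_num)).weight s * Real.exp (-β * s) /
        ∑ t ∈ (twoPoint (1 / 2) (by norm_num) (by norm_num)).weight.support,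
          (twoPoint (1 / 2) (by norm_num) (by norm_num)).weight t * Real.exp (-β * t)
      apply div_pos _ (tilt_norm_pos β _)
      apply mul_pos _ (Real.exp_pos _)
      rw [← twoPoint_support (1 / 2) (by norm_num) (by norm_num), Finsupp.mem_support_iff] at hs
      exact lt_of_le_of_ne (FinProb.nonneg _ _) (Ne.symm hs)
    rw [← h1] at h0mem
    -- both points would be the selected one
    have key : ∀ s ∈ ({0, 1} : Finset ℕ),
        index v (twoPoint (1 / 2) (by norm_num) (by norm_num)) = s := by
      intro s hs
      have h2 : 0 < (Finsupp.single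
        (index v (twoPoint (1 / 2) (by norm_num) (by norm_num))) (1 : ℝ)) s := h0mem s hs
      rw [Finsupp.single_apply] at h2
      by_contra hne
      rw [if_neg hne] at h2
      exact lt_irrefl _ h2
    have ha := key 0 (by simp)
    have hb := key 1 (by simp)
    omega
  · intro hcon
    -- equal weights: the index is zero but the maximum is one
    have h1 := congrArg (fun Φ : FinProb → FinProb =>
      Φ (twoPoint (1 / 2) (by norm_num) (by norm_num))) hcon
    have h2 := pointMass_injective h1
    have h4 : (twoPoint (1 / 2) (by norm_num) (by norm_num)).weight.support.max'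
        (support_nonempty _) = 1 := by
      apply le_antisymm
      · apply Finset.max'_le
        intro y hy
        rw [twoPoint_support] at hy
        simp only [mem_insert, mem_singleton] at hy
        omega
      · apply Finset.le_max'
        rw [twoPoint_support]
        simp
    rw [h4] at h2
    have h5 := (index_spec v (twoPoint (1 / 2) (by norm_num) (by norm_num))).2 0
      (by rw [h2]; norm_num)
    rw [h2, twoPoint_zero, twoPoint_one] at h5
    norm_num at h5
  · intro hcon
    have h1 := congrArg (fun Φ : FinProb → FinProb =>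
      Φ (twoPoint (1 / 3) (by norm_num) (by norm_num))) hcon
    have h2 := pointMass_injective h1
    have h4 : (twoPoint (1 / 3) (by norm_num) (by norm_num)).weight.support.min'
        (support_nonempty _) = 0 := by
      apply Nat.le_zero.1
      apply Finset.min'_le
      rw [twoPoint_support]
      simp
    rw [h4] at h2
    have h5 := (index_spec v (twoPoint (1 / 3) (by norm_num) (by norm_num))).1 1
    rw [h2, twoPoint_zero, twoPoint_one] at h5
    have h6 : (1 - 1 / 3 : ℝ) = 2 * (1 / 3) := by norm_num
    rw [h6, map_mul] at h5
    have h7 : v (1 / 3 : ℝ) = 1 := by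
      rw [one_div, map_inv₀, h3, inv_one]
    rw [h7, mul_one] at h5
    exact absurd hV (not_lt.2 h5)

end Pool.Agent.Results.MP_aec1ed_pr.ExoticEndomorphism
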